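import Pool.Agent.Q212.DZ4

/-!
# Existentially definable approximate lattices in the rational numbers
-/

set_option autoImplicit false

namespace Pool.Agent.Results.MP_28f2cb_lc.ApproximateLattices

open MvPolynomial

/-- The set of all rational numbers which are integers. -/
def Integers : Set ℚ := {x | ∃ z : ℤ, x = z}

/-- `X` is existentially definable in `ℚ`. -/
def ExistentiallyDefinable (X : Set ℚ) : Prop :=
  ∃ (n : ℕ) (P : MvPolynomial (Fin (n + 1)) ℤ), ∀ q : ℚ, q ∈ X ↔
    ∃ y : Fin n → ℚ, aeval (Fin.cons q y : Fin (n + 1) → ℚ) P = 0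

/-- If some infinite set `T` of rational numbers with only finitely many elements in each bounded
interval, with `T - T ⊆ T + F` for a finite set `F`, is existentially definable in `ℚ`, so is the
set of integers. -/
theorem result (T F : Set ℚ) (h : ExistentiallyDefinable T) (hT : T.Infinite)
    (hb : ∀ B : ℚ, {t ∈ T | |t| ≤ B}.Finite) (hF : F.Finite)
    (hTF : ∀ a ∈ T, ∀ b ∈ T, ∃ t ∈ T, ∃ f ∈ F, a - b = t + f) :
    ExistentiallyDefinable Integers :=
  Pool.Agent.Q212.DZ.dio_zz_of_app h hTF hF hT hb

end Pool.Agent.Results.MP_28f2cb_lc.ApproximateLattices
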