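import Pool.Agent.Q212.DZ2
import Pool.Agent.Q212.DZ4

/-!
# The integers are definable from quasi-integers containing a positive proportion of the integers
-/

set_option autoImplicit false

namespace Pool.Agent.Results.MP_28f2cb_lc.DenseQuasiIntegers

open MvPolynomial

/-- The set of all rational numbers which are integers. -/
def Integers : Set ℚ := {x | ∃ z : ℤ, x = z}

/-- `X` is existentially definable in `ℚ`. -/
def ExistentiallyDefinable (X : Set ℚ) : Prop :=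
  ∃ (n : ℕ) (P : MvPolynomial (Fin (n + 1)) ℤ), ∀ q : ℚ, q ∈ X ↔
    ∃ y : Fin n → ℚ, aeval (Fin.cons q y : Fin (n + 1) → ℚ) P = 0

/-- `X` is existentially definable in `(ℚ, T)`, uniformly for all `T` in the class `𝒯`: one
polynomial `P` with integer coefficients and one finite set `S` of variables, which have to be in
`T`, work for all `T` in the class. -/
def DefinableFrom (𝒯 : Set ℚ → Prop) (X : Set ℚ) : Prop :=
  ∃ (n : ℕ) (P : MvPolynomial (Fin (n + 1)) ℤ) (S : Finset (Fin (n + 1))),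
    ∀ T : Set ℚ, 𝒯 T → ∀ q : ℚ, q ∈ X ↔
      ∃ y : Fin (n + 1) → ℚ, y 0 = q ∧ aeval y P = 0 ∧ ∀ s ∈ S, y s ∈ T

/-- The denominators of the elements `x` of `T` are at most
`exp (A (1 + log max(1, |x|)) ^ δ)`. -/
def Quasi (A δ : ℝ) (T : Set ℚ) : Prop :=
  ∀ x ∈ T, Real.log x.den ≤ A * (1 + Real.log (max 1 |(x : ℝ)|)) ^ δ

/-- For all `N ≥ N₀` at least `ε N` integers of absolute value at most `N` are in `T`. -/
def DenseIntegers (ε : ℝ) (N₀ : ℕ) (T : Set ℚ) : Prop :=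
  ∀ N : ℕ, N₀ ≤ N → ε * N ≤ {z : ℤ | |z| ≤ N ∧ (z : ℚ) ∈ T}.ncard

open Pool.Agent.Q212.DZ Pool.Agent.TH255.QI Pool.Agent.TH255.HC

/-- the general form -/
theorem dt_gen {A δ : ℝ} {m K C : ℕ} (hδ : δ < 1 / 2) (hK : 0 < K) (hC : 0 < C)
    {𝒯 : Set ℚ → Prop} (h1 : ∀ T, 𝒯 T → Quasi A δ T)
    (h2 : ∀ T, 𝒯 T → ∀ z : ℤ, (z : ℚ) ∈ Phi m K C T) {Q : ℚ → Prop}
    (hQ : ∀ A' δ' : ℝ, δ' < 1 / 2 → DT (Qu A' δ') (fun _ v => Q (v 0))) :
    DT 𝒯 (fun _ v => Q (v 0)) := by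
  obtain ⟨A', hA'⟩ := qi_phi (A := A) (δ := δ) m hK hC
  refine dt_subst (𝒯' := Qu A' (max δ 0)) (Φ := Phi m K C) (fun T hT => ⟨h2 T hT, ?_⟩)
    (dt_phi m K C) (hQ A' (max δ 0) (max_lt hδ (by norm_num)))
  exact hA' T (h1 T hT)

theorem dt_dense {A δ ε : ℝ} (hδ : δ < 1 / 2) (hε : 0 < ε) (N₀ : ℕ) {Q : ℚ → Prop}
    (hQ : ∀ A' δ' : ℝ, δ' < 1 / 2 → DT (Qu A' δ') (fun _ v => Q (v 0))) :
    DT (fun T => Quasi A δ T ∧ DenseIntegers ε N₀ T) (fun _ v => Q (v 0)) := by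
  obtain ⟨m, K, C, hK, hC, h⟩ := int_mem_phi hε N₀
  exact dt_gen hδ hK hC (fun T hT => hT.1) (fun T hT => h T hT.2) hQ

theorem definable_of_dt {𝒯 : Set ℚ → Prop} {X : Set ℚ} (h : DT 𝒯 (fun _ v => v 0 ∈ X)) :
    DefinableFrom 𝒯 X := DT.final (Q := fun x => x ∈ X) h

/-- For all real `A`, `δ < 1/2`, `ε > 0` and all `N₀`, the set of integers and every recursively
enumerable set of natural numbers are existentially definable, by formulas which do not depend on
`T`, from every set `T` of rational numbers with the denominator bound `Quasi A δ T` which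
contains, for all `N ≥ N₀`, at least `ε N` integers of absolute value at most `N`. In particular,
if such a set `T` is existentially definable in `ℚ`, so is the set of integers. -/
theorem result (A δ ε : ℝ) (N₀ : ℕ) (hδ : δ < 1 / 2) (hε : 0 < ε) :
    DefinableFrom (fun T => Quasi A δ T ∧ DenseIntegers ε N₀ T) Integers ∧
    (∀ W : ℕ → Prop, REPred W →
      DefinableFrom (fun T => Quasi A δ T ∧ DenseIntegers ε N₀ T) {x | ∃ a : ℕ, x = a ∧ W a}) ∧
    (∀ T : Set ℚ, ExistentiallyDefinable T → Quasi A δ T → DenseIntegers ε N₀ T →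
      ExistentiallyDefinable Integers) := by
  have hI : ∀ A' δ' : ℝ, δ' < 1 / 2 → DT (Qu A' δ') (fun _ v => v 0 ∈ Integers) :=
    fun A' δ' hδ' => dt_int hδ'
  refine ⟨?_, fun W hr => ?_, fun T hT hq hd => ?_⟩
  · exact definable_of_dt (dt_dense (Q := fun x => x ∈ Integers) hδ hε N₀ hI)
  · exact definable_of_dt (dt_dense
      (Q := fun x => x ∈ ({x | ∃ a : ℕ, x = a ∧ W a} : Set ℚ)) hδ hε N₀
      (fun A' δ' hδ' => dt_re hδ' hr))
  · exact dio_of_dt_of_dio (X := Integers) hT ⟨hq, hd⟩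
      (dt_dense (Q := fun x => x ∈ Integers) hδ hε N₀ hI)

end Pool.Agent.Results.MP_28f2cb_lc.DenseQuasiIntegers
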