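import Pool.Agent.Q212.DZ4

/-!
# Existentially definable sets of integers of positive upper Banach density
-/

set_option autoImplicit false

namespace Pool.Agent.Results.MP_28f2cb_lc.UpperBanachDensity

open MvPolynomial

/-- The set of all rational numbers which are integers. -/
def Integers : Set ℚ := {x | ∃ z : ℤ, x = z}

/-- `X` is existentially definable in `ℚ`. -/
def ExistentiallyDefinable (X : Set ℚ) : Prop :=
  ∃ (n : ℕ) (P : MvPolynomial (Fin (n + 1)) ℤ), ∀ q : ℚ, q ∈ X ↔
    ∃ y : Fin n → ℚ, aeval (Fin.cons q y : Fin (n + 1) → ℚ) P = 0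

/-- A set of integers has positive upper Banach density. -/
def PositiveUpperBanachDensity (T : Set ℤ) : Prop :=
  ∃ ε : ℝ, 0 < ε ∧ ∀ L : ℕ, ∃ (a : ℤ) (n : ℕ), L ≤ n ∧
    ε * n ≤ {z : ℤ | z ∈ T ∧ a < z ∧ z ≤ a + n}.ncard

/-- If some set of integers of positive upper Banach density is existentially definable in `ℚ`,
so is the set of integers. -/
theorem result (T : Set ℤ) (h : ExistentiallyDefinable ((fun z : ℤ => (z : ℚ)) '' T))
    (hT : PositiveUpperBanachDensity T) : ExistentiallyDefinable Integers :=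
  Pool.Agent.Q212.DZ.dio_zz_of_ubd h hT

end Pool.Agent.Results.MP_28f2cb_lc.UpperBanachDensity
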